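import Pool.Agent.PD4.Pub.Defs
import Pool.Agent.PD4.Top.Model
import Pool.Agent.PD4.Top.Pi1b

/-!
# The public definitions in terms of the general Delta-complex definitions
-/

namespace Pool.Agent.PD4.Pub

variable {n : ℕ} (M : Spc (Fin n → ℤ))

/-- the isomorphism of the fundamental group with `ℤⁿ` -/
noncomputable def fE : FundamentalGroup M.X M.x0 ≃* Multiplicative (Fin n → ℤ) :=
  MulEquiv.ofBijective
    (MonoidHom.mk' (fun a => Multiplicative.ofAdd (M.f a)) fun a b => by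
      rw [M.f_mul]
      rfl)
    (Multiplicative.ofAdd.bijective.comp M.f_bij)

theorem fE_apply (a : FundamentalGroup M.X M.x0) : Multiplicative.toAdd (fE M a) = M.f a := rfl

/-- the cocycle of `M` -/
noncomputable abbrev kap : Top.Kap (Top.singCx M.X) (Fin n → ℤ) :=
  Top.kapOf M.τ (fE M).toMonoidHom

theorem hol1_eq (e : Simp M.X 1) : M.hol1 e = (kap M).k e := by
  have key : ∀ (p : Path (pt e 0) (pt e 1)), (∀ t, pt e t = p t) →
      Top.ke M.τ (fE M).toMonoidHom e =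
        Top.kq M.τ (fE M).toMonoidHom (Path.Homotopic.Quotient.mk p) :=
    fun p hp => Top.ke_eq M.τ (fE M).toMonoidHom p e hp
  exact (key (epath e) fun _ => rfl).symm

theorem edge_eq {k : ℕ} (s : Simp M.X k) (i j : Fin (k + 1)) (h : i < j) :
    edge i j s = (Top.singCx M.X).map (Top.ed i j h) s := by
  have h1 : (![i, j] : Fin (1 + 1) → Fin (k + 1)) = Top.ed i j h := by
    funext x
    fin_cases x
    · exact (Top.ed_zero i j h).symm
    · exact (Top.ed_one i j h).symm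
  unfold edge face
  rw [h1]
  rfl

theorem hol_eq {k : ℕ} (s : Simp M.X k) (i j : Fin (k + 1)) :
    M.hol s i j = (kap M).kk s i j := by
  unfold Spc.hol Top.Kap.kk
  split_ifs with h
  · rw [hol1_eq, edge_eq M s i j h]
  · rfl

theorem bd_eq (k : ℕ) (x : M.Ch (k + 1)) : M.bd k x = Top.bd (kap M) Top.tau k x := by
  unfold Spc.bd Top.bd
  rw [Finsupp.linearCombination_apply]
  refine Finsupp.sum_congr fun s _ => ?_
  rw [Finset.smul_sum]
  refine Finset.sum_congr rfl fun i _ => ?_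
  rw [hol_eq, Finsupp.smul_single, smul_eq_mul]
  rfl

theorem cobd_eq {k : ℕ} (c : Simp M.X k → Lam (Fin n → ℤ)) :
    M.cobd c = Top.del (kap M) Top.tau c := by
  funext s
  unfold Spc.cobd Top.del
  refine Finset.sum_congr rfl fun i _ => ?_
  rw [hol_eq]
  rfl

theorem isCocyc_iff {k : ℕ} (c : Simp M.X k → Lam (Fin n → ℤ)) :
    M.IsCocyc c ↔ Top.del (kap M) Top.tau c = 0 := by
  unfold Spc.IsCocyc
  rw [← cobd_eq]
  exact ⟨fun h => funext h, fun h s => congrFun h s⟩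

theorem isCobd_iff (k : ℕ) (c : Simp M.X k → Lam (Fin n → ℤ)) :
    M.IsCobd k c ↔ Top.IsCobd (kap M) Top.tau k c := by
  cases k with
  | zero => exact ⟨fun h => funext h, fun h s => congrFun h s⟩
  | succ k =>
    change (∃ b, ∀ s, M.cobd b s = c s) ↔ ∃ b, Top.del (kap M) Top.tau b = c
    constructor
    · rintro ⟨b, hb⟩
      exact ⟨b, by rw [← cobd_eq]; exact funext hb⟩
    · rintro ⟨b, hb⟩
      refine ⟨b, fun s => ?_⟩
      rw [cobd_eq]
      exact congrFun hb s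

theorem isCyc_iff (k : ℕ) (x : M.Ch k) :
    M.IsCyc k x ↔ Top.IsCyc (kap M) Top.tau k x := by
  cases k with
  | zero => exact Iff.rfl
  | succ k =>
    change M.bd k x = 0 ↔ Top.bd (kap M) Top.tau k x = 0
    rw [bd_eq]
    rfl

theorem cap_eq (z : Simp M.X 4 →₀ ℤ) {p q : ℕ} (h : p + q = 4)
    (c : Simp M.X p → Lam (Fin n → ℤ)) :
    M.cap z h c = Top.cap (kap M) Top.tau z h c := by
  unfold Spc.cap Top.cap
  refine Finsupp.sum_congr fun s _ => ?_
  rw [hol_eq]
  rfl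

theorem bdZ_eq (k : ℕ) (x : Simp M.X (k + 1) →₀ ℤ) :
    M.bdZ k x = Top.bdZ (X := Top.singCx M.X) k x := by
  unfold Spc.bdZ Top.bdZ
  rw [Finsupp.linearCombination_apply]
  refine Finsupp.sum_congr fun s _ => ?_
  rw [Finset.smul_sum]
  refine Finset.sum_congr rfl fun i _ => ?_
  rw [Finsupp.smul_single, smul_eq_mul]
  rfl

theorem pDual {z : Simp M.X 4 →₀ ℤ} (D : M.Duality z) : Top.PDual (kap M) z where
  cyc := by
    rw [← bdZ_eq]
    exact D.cyc
  inj p q h c hc hx := by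
    rw [← isCobd_iff]
    refine D.inj p q h c ((isCocyc_iff M c).2 hc) ?_
    obtain ⟨x, hx⟩ := hx
    refine ⟨x, ?_⟩
    rw [bd_eq, cap_eq]
    exact hx
  surj p q h y hy := by
    obtain ⟨c, x, h1, h2⟩ := D.surj p q h y ((isCyc_iff M q y).2 hy)
    refine ⟨c, x, (isCocyc_iff M c).1 h1, ?_⟩
    rw [bd_eq, cap_eq] at h2
    exact h2
  coh_hi p hp c hc := by
    rw [← isCobd_iff]
    exact D.coh_hi p hp c ((isCocyc_iff M c).2 hc)
  hom_hi q hq y hy := by
    obtain ⟨x, hx⟩ := D.hom_hi q hq y ((isCyc_iff M q y).2 hy)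
    rw [bd_eq] at hx
    exact ⟨x, hx⟩

theorem lowExact : Top.LowExact (kap M) := Top.lowExact_sing M.τ (fE M)

theorem cobdZ_eq {k : ℕ} (a : Simp M.X k → ℤ) :
    M.cobdZ a = Top.dZ (Top.singCx M.X) k a := rfl

theorem cup22_eq (z : Simp M.X 4 →₀ ℤ) (a b : Simp M.X 2 → ℤ) :
    M.cup22 z a b = Top.cup22 (X := Top.singCx M.X) z a b := rfl

theorem cup4_eq (M : PCx (Fin n → ℤ)) (i j k l : Fin n) :
    M.cup4 i j k l = Top.cup4 (kap M.toSpc) M.z i j k l := by
  unfold PCx.cup4 Top.cup4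
  refine Finsupp.sum_congr fun s _ => ?_
  rw [hol_eq, hol_eq, hol_eq, hol_eq]

end Pool.Agent.PD4.Pub
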