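import Pool.Agent.PD4.Pub.BrA

/-!
# The finite model
-/

namespace Pool.Agent.PD4.Pub

open Matrix

variable {n : ℕ} (M : Spc (Fin n → ℤ))

/-- the finite model -/
noncomputable def finModel (F : M.FinType) : Top.FinModel (kap M) :=
  letI := F.fI
  letI := Classical.decEq F.I
  { I := F.I
    fI := F.fI
    dI := Classical.decEq F.I
    deg := F.deg
    d := Matrix.of F.d
    hd := F.d_deg
    dd := Matrix.ext fun i j => Matrix.mul_apply.trans (F.d_d i j)
    h := fun k =>
      { toFun := F.h k
        map_add' := fun x y => funext fun i => F.h_add k x y i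
        map_smul' := fun a x => funext fun i => F.h_smul k a x i }
    h_supp := F.h_deg
    h_bd := fun k x => funext fun i =>
      (congrArg (fun y => F.h k y i) (bd_eq M k x)).symm.trans (F.h_bd k x i)
    g := fun k =>
      { toFun := F.g k
        map_add' := fun x y => F.g_add k x y
        map_smul' := fun a x => F.g_smul k a x }
    g_supp := F.g_deg
    g_bd := fun k y => (bd_eq M k _).symm.trans (F.g_bd k y)
    P := fun k =>
      { toFun := F.P k
        map_add' := fun x y => F.P_add k x y
        map_smul' := fun a x => F.P_smul k a x }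
    P_zero := fun x => (F.P_zero x).trans (bd_eq M 0 _)
    P_succ := fun k x => (F.P_succ k x).trans
      (congrArg₂ (· + ·) (bd_eq M (k + 1) _) (congrArg (F.P k) (bd_eq M k x)))
    Q := Matrix.of F.Q
    hQ := F.Q_deg
    Q_eq := fun k y hy => funext fun i => by
      have h := F.Q_eq k y hy i
      rw [Matrix.mulVec_mulVec, Matrix.mulVec_mulVec, ← Matrix.add_mulVec]
      refine Eq.trans (b := F.h k (F.g k y) i - y i) rfl ?_
      rw [h, Matrix.mulVec, dotProduct, Finset.sum_comm]
      refine Finset.sum_congr rfl fun l _ => ?_
      rw [Matrix.add_apply, Matrix.mul_apply, Matrix.mul_apply, ← Finset.sum_add_distrib,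
        Finset.sum_mul]
      rfl }

end Pool.Agent.PD4.Pub
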