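import Pool.Agent.PD4.Pub.BrB
import Pool.Agent.PD4.Top.Transfer
import Pool.Agent.PD4.Asm
import Pool.Agent.PD4.Cert2

/-!
# No four dimensional Poincaré complex realises `ω`
-/

namespace Pool.Agent.PD4.Pub

open Module ExteriorAlgebra Pool.Agent.H74

variable {V : Type} [AddCommGroup V]

theorem topClass_eq {n : ℕ} (x : Basis (Fin n) ℤ V) : topClass x = TorusE8.topClass x := by
  unfold topClass TorusE8.topClass
  rw [ExteriorAlgebra.ιMulti_apply]

/-- the quadruple products -/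
theorem mono_om (x : Basis (Fin 8) ℤ V) (i j k l : Fin 8) :
    ι ℤ (x i) * ι ℤ (x j) * ι ℤ (x k) * ι ℤ (x l) * TorusE8.om x =
      omC i j k l • topClass x := by
  have h0 : ι ℤ (x i) * ι ℤ (x j) * ι ℤ (x k) * ι ℤ (x l) =
      ιMulti ℤ 4 (fun a => x (![i, j, k, l] a)) := by
    rw [ExteriorAlgebra.ιMulti_apply]
    simp [List.ofFn_succ, mul_assoc]
  rw [h0, topClass_eq, TorusE8.om, omC]
  generalize TorusE8.omData = L
  induction L with
  | nil => simp
  | cons t L ih =>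
    simp only [List.map_cons, List.sum_cons, mul_add, add_smul]
    rw [ih, mul_smul_comm, ιMulti_mul_ιMulti]
    have h := TorusE8.ιMulti_single_comp (n := 8) x
      (Fin.append ![i, j, k, l] t.1 : Fin (4 + 4) → Fin 8)
    have h2 : (fun a : Fin (4 + 4) => x ((Fin.append ![i, j, k, l] t.1 : Fin (4 + 4) → Fin 8) a))
        = Fin.append (fun a => x (![i, j, k, l] a)) (fun a => x (t.1 a)) := by
      funext a
      refine Fin.addCases (fun a => ?_) (fun a => ?_) a
      · simp only [Fin.append_left]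
      · simp only [Fin.append_right]
    rw [← h2]
    have h3 : (ιMulti ℤ (4 + 4)) (fun a : Fin (4 + 4) =>
        x ((Fin.append ![i, j, k, l] t.1 : Fin (4 + 4) → Fin 8) a)) =
        TorusE8.sgnL [(i : ℕ), j, k, l, t.1 0, t.1 1, t.1 2, t.1 3] • TorusE8.topClass x := by
      refine h.trans ?_
      congr 1
    rw [h3, smul_smul]

/-- injectivity of `H²/torsion → ℤ²⁸` -/
theorem rankLe (x : Basis (Fin 8) ℤ V) (M : Spc (Fin 8 → ℤ)) (z : Simp M.X 4 →₀ ℤ)
    (φ : LinearMap.BilinForm ℤ (⋀[ℤ]^2 V)) (h : M.FormIso z φ) :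
    Top.RankLe (Top.singCx M.X) 28 := by
  obtain ⟨e, hadd, -, hker, -⟩ := h
  have hc : ∀ a : LinearMap.ker (Top.dZ (Top.singCx M.X) 2), M.IsCocycZ (k := 2) a.1 :=
    fun a s => congrFun a.2 s
  let e' : LinearMap.ker (Top.dZ (Top.singCx M.X) 2) →+ ⋀[ℤ]^2 V :=
    AddMonoidHom.mk' (fun a => e a.1) fun a b => hadd a.1 b.1 (hc a) (hc b)
  refine ⟨(TorusE8.B x).equivFun.toLinearMap.comp e'.toIntLinearMap, fun a ha => ?_⟩
  have h1 : e a.1 = 0 := by
    have h2 : (TorusE8.B x).equivFun (e a.1) = 0 := ha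
    rwa [LinearEquiv.map_eq_zero_iff] at h2
  obtain ⟨r, hr, b, hb⟩ := (hker a.1 (hc a)).1 h1
  exact ⟨r, hr, b, funext hb⟩

/-- **no four dimensional Poincaré complex realises the class `ω`** -/
theorem not_realizes (x : Basis (Fin 8) ℤ V) (M : PCx (Fin 8 → ℤ))
    (φ : LinearMap.BilinForm ℤ (⋀[ℤ]^2 V)) (h : M.Realizes x (TorusE8.om x) φ) : False := by
  obtain ⟨F⟩ := M.finType
  have hform : ∀ i j k l, Top.cup4 (kap M.toSpc) M.z i j k l = omC i j k l := by
    intro i j k l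
    have h1 := h.push i j k l
    rw [mono_om, topClass_eq] at h1
    rw [← cup4_eq]
    exact (TorusE8.smul_topClass_injective x h1).symm
  obtain ⟨D⟩ := Top.iface_of_model (finModel M.toSpc F) M.z (lowExact M.toSpc)
    (pDual M.toSpc M.dual) hform (rankLe x M.toSpc M.z φ h.form)
  exact iface_false D

/-- there is a unimodular class which is realised by no four dimensional Poincaré complex -/
theorem main (x : Basis (Fin 8) ℤ V) :
    ∃ ω ∈ ⋀[ℤ]^4 V, ∃ φ : LinearMap.BilinForm ℤ (⋀[ℤ]^2 V),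
      IsFormOf x ω φ ∧ IsUnimodular φ ∧ ∀ M : PCx (Fin 8 → ℤ), ¬ M.Realizes x ω φ := by
  refine ⟨TorusE8.om x, TorusE8.om_mem x, TorusE8.phi x, fun a b => ?_, ?_,
    fun M h => not_realizes x M _ h⟩
  · rw [topClass_eq]
    exact TorusE8.isFormOf_phi x a b
  · exact TorusE8.isUnimodular_of_gram (TorusE8.C x) (TorusE8.phi x) (TorusE8.E8Hinv 10)
      (by rw [TorusE8.gram_C, TorusE8.E8H_mul_inv])

end Pool.Agent.PD4.Pub
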