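import Mathlib

/-!
# Four dimensional Poincaré complexes with free abelian fundamental group

All definitions of the theorem on MP_69cf13_gt.  Everything is literal: a path connected space `X`,
an isomorphism `f` of `π₁(X, x0)` with an abelian group `A` (below `A = ℤⁿ`), singular simplices,
singular chains and cochains of `X` with coefficients in `Λ = ℤ[π₁(X)] = ℤ[A]` (that is, the
singular chain complex of the universal covering of `X` as a complex of `Λ`-modules), cup and cap
products.

* `Spc A`: a space `X` with base point, base paths and an isomorphism `π₁(X) ≃ A`.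
* `Spc.bd`, `Spc.cobd`: the complexes `C_*(X; Λ)` and `C^*(X; Λ) = Hom_Λ(C_*(X; Λ), Λ)`.
* `Spc.FinType`: `C_*(X; Λ)` is chain homotopy equivalent to a bounded complex of finitely
  generated free `Λ`-modules.
* `Spc.Duality z`: `z` is a 4-cycle and `z ∩ - : H^p(X; Λ) → H_{4-p}(X; Λ)` is bijective for all `p`.
* `PCx A`: four dimensional Poincaré complexes with fundamental group `A`.
* `Realizes`: `f_*[M] = ω ∩ [T]`, and the form of `M` on `H²(M; ℤ)` modulo torsion is
  isomorphic to `φ_ω`.
-/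

namespace Pool.Agent.PD4.Pub

open ExteriorAlgebra Module

/-! ### The group ring `Λ = ℤ[A]` -/

/-- the group ring `Λ = ℤ[A]` of an abelian group `A` -/
abbrev Lam (A : Type) := AddMonoidAlgebra ℤ A

/-- the unit `t^m` of `Λ`, for `m ∈ A` -/
noncomputable def tm {A : Type} (m : A) : Lam A := AddMonoidAlgebra.single m 1

/-- the involution `t^m ↦ t^{-m}` of `Λ` -/
noncomputable def conj {A : Type} [AddCommGroup A] (a : Lam A) : Lam A :=
  AddMonoidAlgebra.mapDomainRingHom ℤ (-AddMonoidHom.id A) a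

/-! ### Singular simplices -/

/-- the standard simplex of dimension `k` -/
def Dl (k : ℕ) : Type := stdSimplex ℝ (Fin (k + 1))

/-- its topology (as a subspace of `ℝ^{k+1}`) -/
instance Dl.top (k : ℕ) : TopologicalSpace (Dl k) :=
  (inferInstance : TopologicalSpace (stdSimplex ℝ (Fin (k + 1))))

/-- singular `k`-simplices of `X` -/
abbrev Simp (X : Type) [TopologicalSpace X] (k : ℕ) : Type := C(Dl k, X)

/-- the affine map of standard simplices which maps the vertex `i` to the vertex `g i` -/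
noncomputable def aff {j k : ℕ} (g : Fin (j + 1) → Fin (k + 1)) : C(Dl j, Dl k) :=
  ⟨stdSimplex.map g, stdSimplex.continuous_map g⟩

section faces

variable {X : Type} [TopologicalSpace X]

/-- the singular simplex with the vertices `g 0, g 1, ..., g j` of the singular simplex `s` -/
noncomputable def face {j k : ℕ} (g : Fin (j + 1) → Fin (k + 1)) (s : Simp X k) : Simp X j :=
  s.comp (aff g)

/-- the face of `s` opposite to the vertex `i` -/
noncomputable def fce {k : ℕ} (i : Fin (k + 2)) (s : Simp X (k + 1)) : Simp X k :=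
  face i.succAbove s

/-- the edge of `s` from the vertex `i` to the vertex `j` -/
noncomputable def edge {k : ℕ} (i j : Fin (k + 1)) (s : Simp X k) : Simp X 1 :=
  face ![i, j] s

/-- the front face of dimension `p` of a simplex of dimension `p + q` -/
noncomputable def front {p q k : ℕ} (h : p + q = k) (s : Simp X k) : Simp X p :=
  face (fun x : Fin (p + 1) => (⟨x, by omega⟩ : Fin (k + 1))) s

/-- the back face of dimension `q` of a simplex of dimension `p + q` -/
noncomputable def back {p q k : ℕ} (h : p + q = k) (s : Simp X k) : Simp X q :=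
  face (fun x : Fin (q + 1) => (⟨p + x, by omega⟩ : Fin (k + 1))) s

end faces

theorem seg_mem (t : unitInterval) : ![1 - (t : ℝ), t] ∈ stdSimplex ℝ (Fin (1 + 1)) := by
  refine ⟨fun i => ?_, ?_⟩
  · fin_cases i
    · simpa using t.2.2
    · simpa using t.2.1
  · simp [Fin.sum_univ_two]

/-- the point `(1 - t, t)` of the standard simplex of dimension one -/
def seg (t : unitInterval) : Dl 1 := ⟨![1 - (t : ℝ), t], seg_mem t⟩

theorem continuous_seg : Continuous seg :=
  Continuous.subtype_mk (continuous_pi fun i => by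
    fin_cases i
    · exact continuous_const.sub continuous_subtype_val
    · exact continuous_subtype_val) _

/-- the point of the singular edge `e` with the parameter `t` -/
def pt {X : Type} [TopologicalSpace X] (e : Simp X 1) (t : unitInterval) : X := e (seg t)

theorem continuous_pt {X : Type} [TopologicalSpace X] (e : Simp X 1) : Continuous (pt e) :=
  e.continuous.comp continuous_seg

/-- a singular simplex of dimension one as a path from its first to its second vertex -/
def epath {X : Type} [TopologicalSpace X] (e : Simp X 1) : Path (pt e 0) (pt e 1) :=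
  ⟨⟨pt e, continuous_pt e⟩, rfl, rfl⟩

/-! ### Spaces with fundamental group `A` -/

/-- a space `X` with a base point `x0`, a path `τ x` from `x0` to every point `x` (so `X` is path
connected) and an isomorphism `f` of its fundamental group with `A` -/
structure Spc (A : Type) [AddCommGroup A] where
  X : Type
  top : TopologicalSpace X
  x0 : X
  τ : ∀ x : X, Path x0 x
  f : FundamentalGroup X x0 → A
  f_mul : ∀ a b, f (a * b) = f a + f b
  f_bij : Function.Bijective f

attribute [instance] Spc.top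

namespace Spc

variable {A : Type} [AddCommGroup A] (M : Spc A)

/-- the element `f [τ(e₀) · e · τ(e₁)⁻¹]` of `A` defined by a singular edge `e` with the vertices
`e₀`, `e₁` -/
noncomputable def hol1 (e : Simp M.X 1) : A :=
  M.f (FundamentalGroup.fromPath
    (((Path.Homotopic.Quotient.mk (M.τ (pt e 0))).trans
      (Path.Homotopic.Quotient.mk (epath e))).trans
        (Path.Homotopic.Quotient.mk (M.τ (pt e 1))).symm))

/-- the element of `A` defined by the edge from the vertex `i` to the vertex `j > i` of a singular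
simplex (`0` if `i = j`) -/
noncomputable def hol {k : ℕ} (s : Simp M.X k) (i j : Fin (k + 1)) : A :=
  if i < j then M.hol1 (edge i j s) else 0

/-- the chains `C_k(X; Λ)` -/
abbrev Ch (k : ℕ) : Type := Simp M.X k →₀ Lam A

/-- the boundary of `C_*(X; Λ)`: `∂ s = t^{hol(0,1)} d_0 s + ∑_{i > 0} (-1)^i d_i s`.  The basis
element `s` of `C_k(X; Λ)` is the lift of `s` to the universal covering which starts at the lift of
the first vertex of `s` given by the path `τ`.  (`i.succAbove 0` is the first vertex of the face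
opposite to the vertex `i`.) -/
noncomputable def bd (k : ℕ) (x : M.Ch (k + 1)) : M.Ch k :=
  x.sum fun s a => ∑ i : Fin (k + 2),
    Finsupp.single (fce i s) (a * ((-1) ^ (i : ℕ) * tm (M.hol s 0 (i.succAbove 0))))

/-- the coboundary of `C^*(X; Λ) = Hom_Λ(C_*(X; Λ), Λ)`; a cochain is given by its values on the
basis elements of `C_k(X; Λ)` -/
noncomputable def cobd {k : ℕ} (c : Simp M.X k → Lam A) (s : Simp M.X (k + 1)) : Lam A :=
  ∑ i : Fin (k + 2), (-1) ^ (i : ℕ) * (tm (M.hol s 0 (i.succAbove 0)) * c (fce i s))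

/-- the cochain `c` is a cocycle -/
def IsCocyc {k : ℕ} (c : Simp M.X k → Lam A) : Prop := ∀ s, M.cobd c s = 0

/-- the cochain `c` is a coboundary -/
def IsCobd : (k : ℕ) → (Simp M.X k → Lam A) → Prop
  | 0, c => ∀ s, c s = 0
  | _ + 1, c => ∃ b, ∀ s, M.cobd b s = c s

/-- the chain `x` is a cycle -/
def IsCyc : (k : ℕ) → M.Ch k → Prop
  | 0, _ => True
  | k + 1, x => M.bd k x = 0

/-- The complex `C_*(X; Λ)` is chain homotopy equivalent to a bounded complex `D` of finitely
generated free `Λ`-modules: `I` is a finite basis of `D = ⊕ D_k`, with degrees `deg`; `d` is the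
matrix of the differential of `D`; `h : C_*(X; Λ) → D` and `g : D → C_*(X; Λ)` are chain maps,
`P` is a chain homotopy from `g h` to `1` and `Q` (a matrix) is a chain homotopy from `h g` to
`1`. -/
structure FinType where
  I : Type
  fI : Fintype I
  deg : I → ℕ
  d : I → I → Lam A
  d_deg : ∀ i j, d i j ≠ 0 → deg j = deg i + 1
  d_d : ∀ i j, ∑ l, d i l * d l j = 0
  h : ∀ k, M.Ch k → I → Lam A
  h_add : ∀ k x y i, h k (x + y) i = h k x i + h k y i
  h_smul : ∀ k (a : Lam A) x i, h k (a • x) i = a * h k x i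
  h_deg : ∀ k x i, h k x i ≠ 0 → deg i = k
  h_bd : ∀ k x i, h k (M.bd k x) i = ∑ j, d i j * h (k + 1) x j
  g : ∀ k, (I → Lam A) → M.Ch k
  g_add : ∀ k y z, g k (fun i => y i + z i) = g k y + g k z
  g_smul : ∀ k (a : Lam A) y, g k (fun i => a * y i) = a • g k y
  g_deg : ∀ k y, (∀ i, deg i = k → y i = 0) → g k y = 0
  g_bd : ∀ k y, M.bd k (g (k + 1) y) = g k (fun i => ∑ j, d i j * y j)
  P : ∀ k, M.Ch k → M.Ch (k + 1)
  P_add : ∀ k x y, P k (x + y) = P k x + P k y
  P_smul : ∀ k (a : Lam A) x, P k (a • x) = a • P k x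
  P_zero : ∀ x, g 0 (h 0 x) - x = M.bd 0 (P 0 x)
  P_succ : ∀ k x, g (k + 1) (h (k + 1) x) - x = M.bd (k + 1) (P (k + 1) x) + P k (M.bd k x)
  Q : I → I → Lam A
  Q_deg : ∀ i j, Q i j ≠ 0 → deg i = deg j + 1
  Q_eq : ∀ k y, (∀ i, y i ≠ 0 → deg i = k) → ∀ i,
    h k (g k y) i - y i = ∑ j, ∑ l, (d i j * Q j l + Q i j * d j l) * y l

/-- the boundary of the singular complex with coefficients in `ℤ` -/
noncomputable def bdZ (k : ℕ) (x : Simp M.X (k + 1) →₀ ℤ) : Simp M.X k →₀ ℤ :=
  x.sum fun s a => ∑ i : Fin (k + 2), Finsupp.single (fce i s) (a * (-1) ^ (i : ℕ))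

/-- the cap product of `c ∈ C^p(X; Λ)` with an integral 4-chain: `c ∩ s` is the element
`conj c(front face) · t^{hol(0,p)} · (back face)` of `C_q(X; Λ)`, `p + q = 4` -/
noncomputable def cap (z : Simp M.X 4 →₀ ℤ) {p q : ℕ} (h : p + q = 4) (c : Simp M.X p → Lam A) :
    M.Ch q :=
  z.sum fun s m => Finsupp.single (back h s)
    ((m : Lam A) * (conj (c (front h s)) * tm (M.hol s 0 ⟨p, by omega⟩)))

/-- Poincaré duality: `z` is a 4-cycle and the cap product with `z` induces a bijection
`H^p(X; Λ) → H_{4-p}(X; Λ)` for all integers `p` (one side is `0` if `p < 0` or `p > 4`) -/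
structure Duality (z : Simp M.X 4 →₀ ℤ) : Prop where
  cyc : M.bdZ 3 z = 0
  inj : ∀ (p q : ℕ) (h : p + q = 4) (c : Simp M.X p → Lam A), M.IsCocyc c →
    (∃ x, M.bd q x = M.cap z h c) → M.IsCobd p c
  surj : ∀ (p q : ℕ) (h : p + q = 4) (y : M.Ch q), M.IsCyc q y →
    ∃ (c : Simp M.X p → Lam A) (x : M.Ch (q + 1)), M.IsCocyc c ∧ y = M.cap z h c + M.bd q x
  coh_hi : ∀ p, 4 < p → ∀ c : Simp M.X p → Lam A, M.IsCocyc c → M.IsCobd p c
  hom_hi : ∀ q, 4 < q → ∀ y : M.Ch q, M.IsCyc q y → ∃ x, M.bd q x = y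

/-- the coboundary of the singular cochain complex with coefficients in `ℤ` -/
noncomputable def cobdZ {k : ℕ} (a : Simp M.X k → ℤ) (s : Simp M.X (k + 1)) : ℤ :=
  ∑ i : Fin (k + 2), (-1) ^ (i : ℕ) * a (fce i s)

/-- singular cocycles with coefficients in `ℤ` -/
def IsCocycZ {k : ℕ} (a : Simp M.X k → ℤ) : Prop := ∀ s, M.cobdZ a s = 0

/-- the class of the 2-cocycle `a` in `H²(X; ℤ)` is a torsion element: some multiple `r a`,
`r ≠ 0`, is a coboundary -/
def IsTors (a : Simp M.X 2 → ℤ) : Prop :=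
  ∃ r : ℤ, r ≠ 0 ∧ ∃ b : Simp M.X 1 → ℤ, ∀ s, M.cobdZ b s = r * a s

/-- the value of the cup product of two 2-cochains on a 4-chain -/
noncomputable def cup22 (z : Simp M.X 4 →₀ ℤ) (a b : Simp M.X 2 → ℤ) : ℤ :=
  z.sum fun s m => m * (a (front (rfl : 2 + 2 = 4) s) * b (back (rfl : 2 + 2 = 4) s))

/-- The form `(a, b) ↦ ⟨a ∪ b, z⟩` on `H²(X; ℤ)` modulo torsion is isomorphic to the form `φ` on
`L`: there is an additive map `e` from the group of 2-cocycles onto `L` whose kernel consists of
the cocycles with a torsion class (so `e` is an isomorphism of `H²(X; ℤ)` modulo torsion with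
`L`) such that `φ (e a) (e b) = ⟨a ∪ b, z⟩`. -/
def FormIso (z : Simp M.X 4 →₀ ℤ) {L : Type} [AddCommGroup L] (φ : LinearMap.BilinForm ℤ L) :
    Prop :=
  ∃ e : (Simp M.X 2 → ℤ) → L,
    (∀ a b, M.IsCocycZ a → M.IsCocycZ b → e (fun s => a s + b s) = e a + e b) ∧
    (∀ v, ∃ a, M.IsCocycZ a ∧ e a = v) ∧
    (∀ a, M.IsCocycZ a → (e a = 0 ↔ M.IsTors a)) ∧
    (∀ a b, M.IsCocycZ a → M.IsCocycZ b → φ (e a) (e b) = M.cup22 z a b)

end Spc

/-! ### Poincaré complexes -/

/-- A four dimensional (oriented) Poincaré complex with fundamental group `A` in the sense of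
Wall: a space `X` with `π₁(X) ≃ A` of finite type over `Λ`, with a fundamental cycle `z`. -/
structure PCx (A : Type) [AddCommGroup A] extends Spc A where
  finType : Nonempty toSpc.FinType
  z : Simp toSpc.X 4 →₀ ℤ
  dual : toSpc.Duality z

/-! ### The cohomology of `ℤⁿ`

`H^*(ℤⁿ)` is the exterior algebra of the free abelian group `V = H¹(ℤⁿ)` with the basis
`x₁, ..., xₙ`, the coordinate functions `ℤⁿ → ℤ`; `H^k(ℤⁿ)` is its submodule `⋀[ℤ]^k V`. -/

/-- the generator `[T] = x₁ x₂ ⋯ xₙ` of `Hⁿ(ℤⁿ)` -/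
noncomputable def topClass {V : Type} [AddCommGroup V] {n : ℕ} (x : Basis (Fin n) ℤ V) :
    ExteriorAlgebra ℤ V :=
  (List.ofFn fun i => ι ℤ (x i)).prod

/-- `φ` is the form `φ_ω` on `H²(ℤⁿ)`: `a b ω = φ(a, b) [T]` -/
def IsFormOf {V : Type} [AddCommGroup V] {n : ℕ} (x : Basis (Fin n) ℤ V)
    (ω : ExteriorAlgebra ℤ V) (φ : LinearMap.BilinForm ℤ (⋀[ℤ]^2 V)) : Prop :=
  ∀ a b : ⋀[ℤ]^2 V,
    (a : ExteriorAlgebra ℤ V) * (b : ExteriorAlgebra ℤ V) * ω = φ a b • topClass x

/-- unimodular forms: the adjoint `v ↦ φ(v, ·)` is bijective -/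
def IsUnimodular {L : Type} [AddCommGroup L] (φ : LinearMap.BilinForm ℤ L) : Prop :=
  Function.Bijective fun v : L => φ v

/-- The value on the fundamental cycle of `M` of the cup product of the four cocycles
`f^* x_i, f^* x_j, f^* x_k, f^* x_l`; the cocycle `f^* x_i` maps an edge `e` to the coordinate
`i` of `hol1 e ∈ ℤⁿ`. -/
noncomputable def PCx.cup4 {n : ℕ} (M : PCx (Fin n → ℤ)) (i j k l : Fin n) : ℤ :=
  M.z.sum fun s m => m * (M.hol s 0 1 i * M.hol s 1 2 j * M.hol s 2 3 k * M.hol s 3 4 l)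

/-- The Poincaré complex `M` with `f : π₁(M) ≃ ℤⁿ` realises `ω` (with `φ = φ_ω`):
* `f_*[M] = ω ∩ [T]`, i.e. `a ω = ⟨f^* a, [M]⟩ [T]` for all `a = x_i x_j x_k x_l` (these span
  `H⁴(ℤⁿ)`);
* the intersection form of `M` on `H²(M; ℤ)` modulo torsion is isomorphic to `φ_ω`. -/
structure PCx.Realizes {n : ℕ} (M : PCx (Fin n → ℤ)) {V : Type} [AddCommGroup V]
    (x : Basis (Fin n) ℤ V) (ω : ExteriorAlgebra ℤ V) (φ : LinearMap.BilinForm ℤ (⋀[ℤ]^2 V)) :
    Prop where
  push : ∀ i j k l : Fin n,
    ι ℤ (x i) * ι ℤ (x j) * ι ℤ (x k) * ι ℤ (x l) * ω = M.cup4 i j k l • topClass x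
  form : M.FormIso M.z φ

end Pool.Agent.PD4.Pub
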